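import Pool.Agent.Helper77.SND.Stmts

/-!
# Signal senders for 3-connected graphs: module CHAIN
-/

set_option autoImplicit false

namespace Pool.Agent.Helper77.SND

theorem chain_congr {m : ℕ} {V : Type} {H : SimpleGraph (Fin m)} {G : SimpleGraph V}
    {c c' : Sym2 V → Bool} (h : ∀ x y, G.Adj x y → c' s(x, y) = c s(x, y)) (hc : Good H G c) :
    Good H G c' := by
  intro b f hf
  obtain ⟨x, y, hxy, hne⟩ := hc b f hf
  refine ⟨x, y, hxy, ?_⟩
  rw [h _ _ (hf.2 x y hxy)]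
  exact hne

theorem chain_compl {m : ℕ} {V : Type} {H : SimpleGraph (Fin m)} {G : SimpleGraph V}
    {c : Sym2 V → Bool} (hc : Good H G c) : Good H G (fun e => !c e) := by
  intro b f hf
  obtain ⟨x, y, hxy, hne⟩ := hc (!b) f hf
  refine ⟨x, y, hxy, ?_⟩
  revert hne
  show c s(f x, f y) ≠ !b → (!c s(f x, f y)) ≠ b
  cases c s(f x, f y) <;> cases b <;> simp

/-- the statement of the induction -/
def ChainAt {m : ℕ} (H : SimpleGraph (Fin m)) (t : ℕ) : Prop :=
  ∃ (W : Type) (_ : Finite W) (S : SimpleGraph W) (a b p q : W) (φ : W → ℕ),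
    S.Adj a b ∧ S.Adj p q ∧ φ a = 0 ∧ φ b = 0 ∧ (φ q = φ p ∨ φ q = φ p + 1) ∧ φ p + φ q = t ∧
    (∀ x y, S.Adj x y → φ x ≤ φ y + 1) ∧ (∃ c, Good H S c) ∧
    ∀ c, Good H S c → ((c s(a, b) = c s(p, q)) ↔ Even t)

theorem chain_zero {m : ℕ} (H : SimpleGraph (Fin m)) (hm : 4 ≤ m) : ChainAt H 0 := by
  have hno : ∀ f : Fin m → Bool, ¬ Copy H (⊤ : SimpleGraph Bool) f := by
    intro f hf
    have h1 := Fintype.card_le_of_injective f hf.1
    rw [Fintype.card_fin, Fintype.card_bool] at h1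
    omega
  refine ⟨Bool, inferInstance, ⊤, false, true, false, true, fun _ => 0, ?_, ?_, rfl, rfl,
    Or.inl rfl, rfl, ?_, ⟨fun _ => true, ?_⟩, ?_⟩
  · simp
  · simp
  · intro x y _
    exact Nat.zero_le _
  · intro b f hf
    exact (hno f hf).elim
  · intro c _
    simp

theorem chain_step {m : ℕ} (H : SimpleGraph (Fin m)) (hGL : ST_GL2) (hC : C3 H)
    (hA : AdjNeg H) (t : ℕ) (ht : ChainAt H t) : ChainAt H (t + 1) := by
  classical
  obtain ⟨W, hW, S, a, b, p, q, φ, hab, hpq, ha0, hb0, hor, hsum, hlip, ⟨c0, hc0⟩, hsgn⟩ := ht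
  obtain ⟨Z, hZ, T, x, u, v, huv, hxu, hxv, ⟨d0, hd0⟩, hneg⟩ := hA
  obtain ⟨V', hV', G', i, j, hi, hj, hju, hjx, hij, hcov, hadj, hGi, hGj, hgood, hglue⟩ :=
    hGL m H hC W Z S T p q u x hpq hxu.symm
  have hpriv : ∀ w, j v ≠ i w := by
    intro w hw
    rcases hij v w hw with h | h
    · exact huv h.1.symm
    · exact hxv.ne h.1.symm
  set r : ℕ := t + 1 - φ q with hr
  let ψ : V' → ℕ := fun z =>
    if h : ∃ w, z = i w then φ (Classical.choose h) else (if z = j v then r else φ q)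
  have hψi : ∀ w, ψ (i w) = φ w := by
    intro w
    have h : ∃ w', i w = i w' := ⟨w, rfl⟩
    have h1 : ψ (i w) = φ (Classical.choose h) := dif_pos h
    rw [h1]
    have h2 := Classical.choose_spec h
    rw [← hi h2]
  have hψv : ψ (j v) = r := by
    have h : ¬ ∃ w, j v = i w := by
      rintro ⟨w, hw⟩
      exact hpriv w hw
    have h1 : ψ (j v) = (if j v = j v then r else φ q) := dif_neg h
    rw [h1, if_pos rfl]
  have hψj : ∀ w, ψ (j w) = φ p ∨ ψ (j w) = φ q ∨ ψ (j w) = r := by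
    intro w
    by_cases h : ∃ w', j w = i w'
    · obtain ⟨w', hw'⟩ := h
      rw [hw', hψi]
      rcases hij w w' hw' with h1 | h1
      · left; rw [h1.2]
      · right; left; rw [h1.2]
    · have h1 : ψ (j w) = (if j w = j v then r else φ q) := dif_neg h
      rw [h1]
      by_cases h2 : j w = j v
      · rw [if_pos h2]; right; right; rfl
      · rw [if_neg h2]; right; left; rfl
  have hψx : ψ (j x) = φ q := by rw [hjx, hψi]
  refine ⟨V', hV', G', i a, i b, j x, j v, ψ, hGi _ _ hab, hGj _ _ hxv, ?_, ?_, ?_, ?_, ?_, ?_, ?_⟩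
  · rw [hψi, ha0]
  · rw [hψi, hb0]
  · rw [hψx, hψv]
    omega
  · rw [hψx, hψv]
    omega
  · intro z z' hz
    rcases hadj z z' hz with ⟨x1, y1, h1, h2, h3⟩ | ⟨w, w', h1, h2, h3⟩
    · rw [h1, h2, hψi, hψi]
      exact hlip _ _ h3
    · rw [h1, h2]
      rcases hψj w with h4 | h4 | h4 <;> rcases hψj w' with h5 | h5 | h5 <;> rw [h4, h5] <;> omega
  · obtain ⟨d, hd, hdc⟩ : ∃ d, Good H T d ∧ d s(u, x) = c0 s(p, q) := by
      by_cases h : d0 s(u, x) = c0 s(p, q)
      · exact ⟨d0, hd0, h⟩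
      · refine ⟨fun e => !d0 e, chain_compl hd0, ?_⟩
        revert h
        show ¬ d0 s(u, x) = c0 s(p, q) → (!d0 s(u, x)) = c0 s(p, q)
        cases d0 s(u, x) <;> cases c0 s(p, q) <;> simp
    obtain ⟨e, he1, he2⟩ := hglue c0 d hdc
    refine ⟨e, (hgood e).2 ⟨chain_congr ?_ hc0, chain_congr ?_ hd⟩⟩
    · intro x1 y1 h1
      show e (Sym2.map i s(x1, y1)) = c0 s(x1, y1)
      rw [Sym2.map_mk]
      exact he1 x1 y1 h1
    · intro x1 y1 h1
      show e (Sym2.map j s(x1, y1)) = d s(x1, y1)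
      rw [Sym2.map_mk]
      exact he2 x1 y1 h1
  · intro e he
    obtain ⟨h1, h2⟩ := (hgood e).1 he
    have h3 := hsgn _ h1
    have h4 := hneg _ h2
    have h5 : pb e i s(a, b) = e s(i a, i b) := rfl
    have h6 : pb e i s(p, q) = e s(i p, i q) := rfl
    have h7 : pb e j s(x, u) = e s(i p, i q) := by
      show e s(j x, j u) = e s(i p, i q)
      rw [hjx, hju, Sym2.eq_swap]
    have h8 : pb e j s(x, v) = e s(j x, j v) := rfl
    rw [h5, h6] at h3
    rw [h7, h8] at h4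
    rw [Nat.even_add_one, ← h3]
    revert h4
    cases e s(i a, i b) <;> cases e s(i p, i q) <;> cases e s(j x, j v) <;> simp

theorem st_CHAIN (hGL : ST_GL2) : ST_CHAIN := by
  intro m H hC hA N s
  have hall : ∀ t, ChainAt H t := by
    intro t
    induction t with
    | zero => exact chain_zero H hC.1
    | succ t ih => exact chain_step H hGL hC hA t ih
  cases s with
  | true =>
    obtain ⟨W, hW, S, a, b, p, q, φ, hab, hpq, ha0, hb0, hor, hsum, hlip, hex, hsgn⟩ :=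
      hall (2 * N + 2)
    refine ⟨W, hW, S, a, b, p, q, φ, hab, hpq, ha0, hb0, by omega, by omega, hlip, hex, ?_⟩
    intro c hc
    rw [hsgn c hc]
    refine ⟨fun _ => rfl, fun _ => ?_⟩
    exact ⟨N + 1, by ring⟩
  | false =>
    obtain ⟨W, hW, S, a, b, p, q, φ, hab, hpq, ha0, hb0, hor, hsum, hlip, hex, hsgn⟩ :=
      hall (2 * N + 1)
    refine ⟨W, hW, S, a, b, p, q, φ, hab, hpq, ha0, hb0, by omega, by omega, hlip, hex, ?_⟩
    intro c hc
    rw [hsgn c hc]
    refine ⟨fun h => ?_, fun h => ?_⟩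
    · exfalso
      have h1 : ¬ Even (2 * N + 1) := by
        rw [Nat.not_even_iff_odd]
        exact ⟨N, rfl⟩
      exact h1 h
    · exact absurd h (by simp)

end Pool.Agent.Helper77.SND
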